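import Pool.Agent.Helper32.KD2.Basic
import Pool.Agent.Helper32.KD2.St.C1

/-! KD2-C2: the cells -/

namespace KD.II.C2

open Finset MeasureTheory

theorem mem_ThF {d J : ℕ} {l : Fin d → ℤ} :
    l ∈ ThF d J ↔ (∃ i, (2 : ℤ) ^ J ≤ |l i|) ∧ ∀ i, |l i| < 2 ^ (J + 1) := by
  unfold ThF
  rw [Finset.mem_filter, Fintype.mem_piFinset]
  constructor
  · rintro ⟨h1, h2⟩
    exact ⟨h2, fun i => abs_lt.2 (Finset.mem_Ioo.1 (h1 i))⟩
  · rintro ⟨h1, h2⟩
    exact ⟨fun i => Finset.mem_Ioo.2 (abs_lt.1 (h2 i)), h1⟩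

theorem neg_mem_ThF {d J : ℕ} {l : Fin d → ℤ} (hl : l ∈ ThF d J) : -l ∈ ThF d J := by
  rw [mem_ThF] at hl ⊢
  simpa using hl

theorem cel_meas {d J : ℕ} (l : Fin d → ℤ) : MeasurableSet (cel d J l) := by
  have h : cel d J l = ⋂ i, {w : Vd d | trz ((2 : ℝ) ^ J * w i) = l i} := by
    ext w
    simp only [cel, trv, Set.mem_ofPred_eq, Set.mem_iInter, funext_iff, Pi.smul_apply, smul_eq_mul]
  rw [h]
  refine MeasurableSet.iInter fun i => ?_
  have hm : Measurable (fun w : Vd d => trz ((2 : ℝ) ^ J * w i)) :=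
    trz_measurable.comp ((measurable_pi_apply i).const_mul _)
  exact hm (MeasurableSet.singleton (l i))

theorem trv_scale {d J j : ℕ} {l : Fin d → ℤ} {w : Vd d} (hw : w ∈ cel d J l) (hj : j ≤ J) :
    trv ((2 : ℝ) ^ j • w) = ijmp J j l := by
  have hw' : trv ((2 : ℝ) ^ J • w) = l := hw
  funext i
  have h1 : trz ((2 : ℝ) ^ J * w i) = l i := by
    have := congrFun hw' i
    simpa only [trv, Pi.smul_apply, smul_eq_mul] using this
  have h2 : (2 : ℝ) ^ j * w i = (2 : ℝ) ^ J * w i / 2 ^ (J - j) := by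
    have h3 : (2 : ℝ) ^ J = 2 ^ j * 2 ^ (J - j) := by
      rw [← pow_add]
      congr 1
      omega
    rw [h3]
    have h4 : (2 : ℝ) ^ (J - j) ≠ 0 := by positivity
    field_simp
  simp only [trv, ijmp, Pi.smul_apply, smul_eq_mul]
  rw [h2, trz_tdiv, h1]

theorem two_pow_le_trz {J m : ℕ} (x : ℝ) :
    (2 : ℤ) ^ (J + m) ≤ |trz ((2 : ℝ) ^ J * x)| ↔ (2 : ℝ) ^ m ≤ |x| := by
  have h := le_abs_trz (2 ^ (J + m)) ((2 : ℝ) ^ J * x)
  push_cast at h
  rw [h, abs_mul, abs_of_pos (by positivity : (0 : ℝ) < 2 ^ J), pow_add]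
  exact mul_le_mul_iff_right₀ (by positivity)

theorem trv_mem_iff {d J : ℕ} (hd : 1 ≤ d) (w : Vd d) :
    trv ((2 : ℝ) ^ J • w) ∈ ThF d J ↔ w ∈ ann d 1 2 := by
  have _ := hd
  rw [mem_ThF]
  simp only [trv, Pi.smul_apply, smul_eq_mul, ann, Set.mem_ofPred_eq]
  refine and_congr ?_ ?_
  · rw [← not_lt, pi_norm_lt_iff one_pos, not_forall]
    refine exists_congr fun i => ?_
    rw [not_lt, Real.norm_eq_abs]
    have := two_pow_le_trz (J := J) (m := 0) (w i)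
    simpa using this
  · rw [pi_norm_lt_iff two_pos]
    refine forall_congr' fun i => ?_
    rw [Real.norm_eq_abs]
    have := two_pow_le_trz (J := J) (m := 1) (w i)
    rw [← not_le, this, not_le, pow_one]

theorem cel_sub_ann {d J : ℕ} (hd : 1 ≤ d) {l : Fin d → ℤ} (hl : l ∈ ThF d J) :
    cel d J l ⊆ ann d 1 2 := by
  intro w hw
  have hw' : trv ((2 : ℝ) ^ J • w) = l := hw
  rw [← trv_mem_iff (J := J) hd w, hw']
  exact hl

theorem neg_mem_cel {d J : ℕ} {l : Fin d → ℤ} {w : Vd d} (hw : w ∈ cel d J l) :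
    -w ∈ cel d J (-l) := by
  have hw' : trv ((2 : ℝ) ^ J • w) = l := hw
  change trv ((2 : ℝ) ^ J • (-w)) = -l
  rw [← hw']
  funext i
  simp only [trv, Pi.smul_apply, smul_eq_mul, Pi.neg_apply, mul_neg]
  exact trz_neg _

theorem ijmp_neg {d J j : ℕ} (l : Fin d → ℤ) : ijmp J j (-l) = -ijmp J j l := by
  funext i
  simp only [ijmp, Pi.neg_apply]
  exact Int.neg_tdiv _ _

theorem abs_tdiv_pow (a : ℤ) (m : ℕ) :
    |a.tdiv (2 ^ m)| = ((a.natAbs / 2 ^ m : ℕ) : ℤ) := by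
  rw [Int.abs_eq_natAbs, Int.natAbs_tdiv]
  have : ((2 : ℤ) ^ m).natAbs = 2 ^ m := by
    rw [Int.natAbs_pow]
    rfl
  rw [this]
  rfl

/-- scaled indices lie in the annulus at scale `j` -/
theorem ijmp_ann {d J j : ℕ} {l : Fin d → ℤ} (hl : l ∈ ThF d J) (hj : j ≤ J) :
    (∃ i, (2 : ℤ) ^ j ≤ |ijmp J j l i|) ∧ ∀ i, |ijmp J j l i| < 2 ^ (j + 1) := by
  rw [mem_ThF] at hl
  obtain ⟨⟨i, hi⟩, h2⟩ := hl
  have hp : 0 < 2 ^ (J - j) := by positivity
  refine ⟨⟨i, ?_⟩, ?_⟩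
  · simp only [ijmp]
    rw [abs_tdiv_pow]
    have h3 : 2 ^ J ≤ (l i).natAbs := by
      rw [Int.abs_eq_natAbs] at hi
      exact_mod_cast hi
    have h4 : 2 ^ j ≤ (l i).natAbs / 2 ^ (J - j) := by
      rw [Nat.le_div_iff_mul_le hp, ← pow_add]
      rw [show j + (J - j) = J by omega]
      exact h3
    exact_mod_cast h4
  · intro k
    simp only [ijmp]
    rw [abs_tdiv_pow]
    have h3 : (l k).natAbs < 2 ^ (J + 1) := by
      have := h2 k
      rw [Int.abs_eq_natAbs] at this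
      exact_mod_cast this
    have h4 : (l k).natAbs / 2 ^ (J - j) < 2 ^ (j + 1) := by
      rw [Nat.div_lt_iff_lt_mul hp, ← pow_add]
      rw [show j + 1 + (J - j) = J + 1 by omega]
      exact h3
    exact_mod_cast h4

end KD.II.C2
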